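import Mathlib

set_option autoImplicit false

namespace Pool.Agent.Results.MP_067019_co.CubePlusVertex

/-- `f` is a `(k,q)`-colouring of the graph `G`: its values lie in `{0, …, k-1}` and adjacent
vertices `u, v` satisfy `q ≤ |f u - f v| ≤ k - q`. -/
def IsColouring {V : Type} (G : SimpleGraph V) (k q : ℕ) (f : V → ℕ) : Prop :=
  (∀ v, f v < k) ∧
    ∀ u v, G.Adj u v → (q : ℤ) ≤ |(f u : ℤ) - f v| ∧ |(f u : ℤ) - f v| ≤ (k : ℤ) - q

/-- One recolouring step: `f` and `g` are `(k,q)`-colourings which differ at exactly one vertex. -/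
def Step {V : Type} (G : SimpleGraph V) (k q : ℕ) (f g : V → ℕ) : Prop :=
  IsColouring G k q f ∧ IsColouring G k q g ∧ ∃ v, f v ≠ g v ∧ ∀ w, w ≠ v → f w = g w

/-- `G` is `(k,q)`-mixing: any `(k,q)`-colouring can be turned into any other one by a finite
sequence of recolouring steps. -/
def Mixing {V : Type} (G : SimpleGraph V) (k q : ℕ) : Prop :=
  ∀ f g, IsColouring G k q f → IsColouring G k q g → Relation.ReflTransGen (Step G k q) f g

/-- The set `R(G)` of rationals `r` such that `G` is `(k,q)`-mixing for all positive integers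
`k, q` with `k / q ≥ r`. -/
def R {V : Type} (G : SimpleGraph V) : Set ℚ :=
  {r | ∀ k q : ℕ, 0 < k → 0 < q → r ≤ (k : ℚ) / q → Mixing G k q}

/-- The circular mixing threshold `M_c(G)`, the infimum of `R(G)`. -/
noncomputable def Mc {V : Type} (G : SimpleGraph V) : ℝ :=
  sInf ((fun r : ℚ => (r : ℝ)) '' R G)

/-- The circular mixing threshold is attained: the infimum of `R(G)` belongs to `R(G)`. -/
def Attained {V : Type} (G : SimpleGraph V) : Prop := ∃ r ∈ R G, (r : ℝ) = Mc G

/-! ### The graph: the cube plus one vertex joined to the two ends of an edge of the cube -/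

/-- Vertices: `none` is the extra vertex `z`, `some (false, i)` is `a i`, `some (true, j)` is
`b j`. -/
abbrev V := Option (Bool × Fin 4)

/-- Adjacency: `a i ∼ b j` iff `i ≠ j`; `z ∼ a 0` and `z ∼ b 1`. -/
def adj : V → V → Prop
  | none, none => False
  | none, some x => x = (false, 0) ∨ x = (true, 1)
  | some x, none => x = (false, 0) ∨ x = (true, 1)
  | some x, some y => x.1 ≠ y.1 ∧ x.2 ≠ y.2

instance : DecidableRel adj := fun x y => by
  rcases x with _ | x <;> rcases y with _ | y <;> unfold adj <;> infer_instance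

/-- The graph. -/
def G : SimpleGraph V where
  Adj := adj
  symm := ⟨by
    intro x y h
    rcases x with _ | x <;> rcases y with _ | y <;> simp_all [adj]
    tauto⟩
  loopless := ⟨by
    intro x h
    rcases x with _ | x <;> simp_all [adj]⟩

instance : DecidableRel G.Adj := inferInstanceAs (DecidableRel adj)

theorem G_connected : G.Connected := by
  rw [SimpleGraph.connected_iff_exists_forall_reachable]
  have hstep : ∀ x y : V, G.Adj x y → G.Reachable x y := fun x y h => h.reachable
  have h1 : ∀ i : Fin 4, i ≠ 0 → G.Reachable (some (false, 0)) (some (true, i)) := fun i hi =>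
    hstep _ _ ⟨by simp, fun h => hi h.symm⟩
  refine ⟨some (false, 0), ?_⟩
  rintro (_ | ⟨s, i⟩)
  · exact hstep _ _ (Or.inl rfl)
  · have h2 : ∀ i : Fin 4, G.Reachable (some (false, 0)) (some (false, i)) := by
      intro i
      by_cases hi : i = 1
      · subst hi
        exact (h1 2 (by decide)).trans (hstep _ _ ⟨by simp, by decide⟩)
      · exact (h1 1 (by decide)).trans (hstep _ _ ⟨by simp, fun h => hi h.symm⟩)
    cases s
    · exact h2 i
    · by_cases hi : i = 0
      · subst hi
        exact (h2 1).trans (hstep _ _ ⟨by simp, by decide⟩)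
      · exact h1 i hi

theorem G_not_colorable : ¬ G.Colorable 2 := by
  rintro ⟨C⟩
  have h1 : C none ≠ C (some (false, 0)) := C.valid (Or.inl rfl)
  have h2 : C none ≠ C (some (true, 1)) := C.valid (Or.inr rfl)
  have h3 : C (some (false, 0)) ≠ C (some (true, 1)) := C.valid ⟨by simp, by decide⟩
  generalize C none = x at *
  generalize C (some (false, 0)) = y at *
  generalize C (some (true, 1)) = w at *
  fin_cases x <;> fin_cases y <;> fin_cases w <;> simp_all

/-! ### Colourings by integers modulo `k` -/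

section Core

variable {k q : ℕ}

/-- `d` is congruent modulo `k` to an integer of the interval `[q, k-q]`. -/
def ok (k q : ℕ) (d : ℤ) : Prop := ∃ t : ℤ, (q : ℤ) ≤ d + t * k ∧ d + t * k ≤ (k : ℤ) - q

theorem ok_neg {d : ℤ} (h : ok k q d) : ok k q (-d) := by
  obtain ⟨t, h1, h2⟩ := h
  refine ⟨1 - t, ?_, ?_⟩ <;> ring_nf at * <;> linarith

theorem ok_comm {x y : ℤ} (h : ok k q (x - y)) : ok k q (y - x) := by
  have := ok_neg h
  rwa [neg_sub] at this

theorem ok_of {d : ℤ} (h1 : (q : ℤ) ≤ d) (h2 : d ≤ (k : ℤ) - q) : ok k q d :=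
  ⟨0, by simpa using h1, by simpa using h2⟩

theorem ok_shift {d : ℤ} (s : ℤ) (h : ok k q d) : ok k q (d + s * k) := by
  obtain ⟨t, h1, h2⟩ := h
  refine ⟨t - s, ?_, ?_⟩ <;> ring_nf at * <;> linarith

theorem ok_congr {d e : ℤ} (h : (k : ℤ) ∣ d - e) (hd : ok k q d) : ok k q e := by
  obtain ⟨s, hs⟩ := h
  have := ok_shift (-s) hd
  have h2 : d + -s * k = e := by linarith
  rwa [h2] at this

/-- bounds deduced from `ok` for a number of absolute value less than `k` -/
theorem ok_abs {d : ℤ} (hq : 0 < q) (h : ok k q d) (h1 : -(k : ℤ) < d) (h2 : d < k) :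
    ((q : ℤ) ≤ d ∧ d ≤ (k : ℤ) - q) ∨ (-((k : ℤ) - q) ≤ d ∧ d ≤ -(q : ℤ)) := by
  obtain ⟨t, h3, h4⟩ := h
  have hq' : (0 : ℤ) < q := by exact_mod_cast hq
  have hk : (0 : ℤ) < k := by linarith
  have t1 : t < 2 := by
    by_contra hc
    have : (2 : ℤ) * k ≤ t * k := by nlinarith
    linarith
  have t2 : -1 < t := by
    by_contra hc
    have : t * k ≤ (-1 : ℤ) * k := by nlinarith
    linarith
  have : t = 0 ∨ t = 1 := by omega
  rcases this with rfl | rfl
  · left
    constructor <;> linarith
  · right
    constructor <;> linarith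

theorem ok_abs' {d : ℤ} (hq : 0 < q) (h : ok k q d) (h1 : -(k : ℤ) < d) (h2 : d < k) :
    (q : ℤ) ≤ |d| ∧ |d| ≤ (k : ℤ) - q := by
  rcases ok_abs hq h h1 h2 with ⟨h3, h4⟩ | ⟨h3, h4⟩
  · have : 0 ≤ d := by omega
    rw [abs_of_nonneg this]
    exact ⟨h3, h4⟩
  · have : d ≤ 0 := by omega
    rw [abs_of_nonpos this]
    constructor <;> linarith

/-- if `d` is not `ok` then it has a representative of absolute value less than `q` -/
theorem exists_rep_of_not_ok {d : ℤ} (hk : 0 < k) (h : ¬ ok k q d) :
    ∃ t : ℤ, |d + t * k| < q := by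
  have hk' : (0 : ℤ) < k := by exact_mod_cast hk
  have h1 := Int.emod_nonneg d hk'.ne'
  have h2 := Int.emod_lt_of_pos d hk'
  have h3 := Int.emod_add_mul_ediv d k
  by_cases h4 : d % k < q
  · refine ⟨-(d / k), ?_⟩
    have : d + -(d / k) * k = d % k := by linarith
    rw [this, abs_of_nonneg h1]
    exact h4
  · by_cases h5 : d % k ≤ k - q
    · exact absurd ⟨-(d / k), by linarith, by linarith⟩ h
    · refine ⟨-(d / k) - 1, ?_⟩
      have : d + (-(d / k) - 1) * k = d % k - k := by linarith
      rw [this, abs_of_nonpos (by linarith)]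
      linarith

/-- An integer-valued function satisfying the colouring condition modulo `k`. -/
def ZValid (k q : ℕ) (F : V → ℤ) : Prop := ∀ u v, G.Adj u v → ok k q (F u - F v)

/-- Reduction modulo `k`. -/
def red (k : ℕ) (F : V → ℤ) : V → ℕ := fun v => (F v % k).toNat

theorem red_cast (hk : 0 < k) (F : V → ℤ) (v : V) : ((red k F v : ℕ) : ℤ) = F v % k := by
  have hk' : (0 : ℤ) < k := by exact_mod_cast hk
  exact Int.toNat_of_nonneg (Int.emod_nonneg _ hk'.ne')

theorem isColouring_red (hk : 0 < k) (hq : 0 < q) {F : V → ℤ} (h : ZValid k q F) :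
    IsColouring G k q (red k F) := by
  have hk' : (0 : ℤ) < k := by exact_mod_cast hk
  refine ⟨fun v => ?_, fun u v huv => ?_⟩
  · have h1 := red_cast hk F v
    have h2 := Int.emod_lt_of_pos (F v) hk'
    omega
  · rw [red_cast hk, red_cast hk]
    have h1 := Int.emod_lt_of_pos (F v) hk'
    have h2 := Int.emod_lt_of_pos (F u) hk'
    have h3 := Int.emod_nonneg (F v) hk'.ne'
    have h4 := Int.emod_nonneg (F u) hk'.ne'
    refine ok_abs' hq (ok_congr ?_ (h u v huv)) (by linarith) (by linarith)
    have e1 := Int.emod_add_mul_ediv (F u) k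
    have e2 := Int.emod_add_mul_ediv (F v) k
    exact ⟨F u / k - F v / k, by linarith⟩

theorem red_eq_of_dvd {F F' : V → ℤ} (h : ∀ v, (k : ℤ) ∣ F v - F' v) : red k F = red k F' := by
  funext v
  unfold red
  have : F v % k = F' v % k :=
    Int.emod_eq_emod_iff_emod_sub_eq_zero.2 (Int.emod_eq_zero_of_dvd (h v))
  rw [this]

theorem reach_of_differ (hk : 0 < k) (hq : 0 < q) {F F' : V → ℤ} (h : ZValid k q F)
    (h' : ZValid k q F') (v : V) (hv : ∀ w, w ≠ v → F w = F' w) :
    Relation.ReflTransGen (Step G k q) (red k F) (red k F') := by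
  by_cases hc : red k F v = red k F' v
  · have : red k F = red k F' := by
      funext w
      by_cases hw : w = v
      · rw [hw, hc]
      · unfold red
        rw [hv w hw]
    rw [this]
  · refine Relation.ReflTransGen.single ⟨isColouring_red hk hq h, isColouring_red hk hq h', v, hc,
      fun w hw => ?_⟩
    unfold red
    rw [hv w hw]

/-! ### Colourings of the cube part -/

/-- Integer colourings of the cube part. -/
def CValid (k q : ℕ) (P : Bool × Fin 4 → ℤ) : Prop :=
  ∀ i j, i ≠ j → ok k q (P (false, i) - P (true, j))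

/-- Colour `z` is allowed for the extra vertex. -/
def zok (k q : ℕ) (P : Bool × Fin 4 → ℤ) (z : ℤ) : Prop :=
  ok k q (z - P (false, 0)) ∧ ok k q (z - P (true, 1))

/-- Extension of a colouring of the cube part to the whole graph. -/
def ext (P : Bool × Fin 4 → ℤ) (z : ℤ) : V → ℤ
  | none => z
  | some x => P x

theorem zvalid_ext {P : Bool × Fin 4 → ℤ} {z : ℤ} (hP : CValid k q P) (hz : zok k q P z) :
    ZValid k q (ext P z) := by
  rintro (_ | ⟨s, i⟩) (_ | ⟨t, j⟩) h
  · exact absurd h (by simp [G])
  · rcases h with h | h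
    · rw [h]; exact hz.1
    · rw [h]; exact hz.2
  · rcases h with h | h
    · rw [h]; exact ok_comm hz.1
    · rw [h]; exact ok_comm hz.2
  · obtain ⟨h1, h2⟩ := h
    cases s <;> cases t
    · exact absurd rfl h1
    · exact hP i j h2
    · exact ok_comm (hP j i (Ne.symm h2))
    · exact absurd rfl h1

/-- The cube colouring `P'` can be reached from `P`, whatever the colour of the extra vertex. -/
def CR (k q : ℕ) (P P' : Bool × Fin 4 → ℤ) : Prop :=
  ∀ z, zok k q P z → ∃ z', zok k q P' z' ∧
    Relation.ReflTransGen (Step G k q) (red k (ext P z)) (red k (ext P' z'))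

theorem CR.refl (P : Bool × Fin 4 → ℤ) : CR k q P P := fun z hz =>
  ⟨z, hz, Relation.ReflTransGen.refl⟩

theorem CR.trans {P P' P'' : Bool × Fin 4 → ℤ} (h : CR k q P P') (h' : CR k q P' P'') :
    CR k q P P'' := fun z hz => by
  obtain ⟨z', h1, h2⟩ := h z hz
  obtain ⟨z'', h3, h4⟩ := h' z' h1
  exact ⟨z'', h3, h2.trans h4⟩

theorem CR.of_dvd {P P' : Bool × Fin 4 → ℤ} (h : ∀ x, (k : ℤ) ∣ P x - P' x) : CR k q P P' :=
  fun z hz => by
  refine ⟨z, ⟨ok_congr ?_ hz.1, ok_congr ?_ hz.2⟩, ?_⟩
  · have h2 := (dvd_neg (a := (k : ℤ))).2 (h (false, 0))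
    have e : z - P (false, 0) - (z - P' (false, 0)) = -(P (false, 0) - P' (false, 0)) := by ring
    rwa [e]
  · have h2 := (dvd_neg (a := (k : ℤ))).2 (h (true, 1))
    have e : z - P (true, 1) - (z - P' (true, 1)) = -(P (true, 1) - P' (true, 1)) := by ring
    rwa [e]
  · rw [red_eq_of_dvd (F := ext P z) (F' := ext P' z)]
    rintro (_ | x)
    · simp [ext]
    · exact h x

theorem CValid.of_dvd {P P' : Bool × Fin 4 → ℤ} (h : ∀ x, (k : ℤ) ∣ P x - P' x)
    (hP : CValid k q P) : CValid k q P' := by
  intro i j hij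
  refine ok_congr ?_ (hP i j hij)
  have h2 := dvd_sub (h (false, i)) (h (true, j))
  have e : P (false, i) - P (true, j) - (P' (false, i) - P' (true, j)) =
      P (false, i) - P' (false, i) - (P (true, j) - P' (true, j)) := by ring
  rwa [e]

/-- moving a vertex of the cube not adjacent to the extra vertex -/
theorem CR.move_other (hk : 0 < k) (hq : 0 < q) {P P' : Bool × Fin 4 → ℤ} (hP : CValid k q P)
    (hP' : CValid k q P') (x : Bool × Fin 4) (hx0 : x ≠ (false, 0)) (hx1 : x ≠ (true, 1))
    (h : ∀ y, y ≠ x → P y = P' y) : CR k q P P' := fun z hz => by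
  have hz' : zok k q P' z := by
    unfold zok at *
    rw [← h _ hx0.symm, ← h _ hx1.symm]
    exact hz
  refine ⟨z, hz', reach_of_differ hk hq (zvalid_ext hP hz) (zvalid_ext hP' hz') (some x) ?_⟩
  rintro (_ | y) hy
  · rfl
  · exact h y (fun hc => hy (by rw [hc]))

theorem zplace (h4 : 4 * q ≤ k) (hq : 0 < q) (x d : ℤ) (h1 : ok k q (d - x))
    (h2 : ok k q (d - (x + 1))) : ∃ z, ok k q (z - x) ∧ ok k q (z - (x + 1)) ∧ ok k q (z - d) := by
  have h4' : (4 : ℤ) * q ≤ k := by exact_mod_cast h4
  obtain ⟨t, h3, h5⟩ := h1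
  -- normalise `d`
  set D := d + t * k with hD
  have h6 : (q : ℤ) ≤ D - x := by linarith
  have h7 : D - x ≤ (k : ℤ) - q := by linarith
  have h2' : ok k q (D - (x + 1)) := by
    have := ok_shift t h2
    convert this using 1
    rw [hD]; ring
  have hq' : (0 : ℤ) < q := by exact_mod_cast hq
  have h8 : (q : ℤ) ≤ D - (x + 1) := by
    rcases ok_abs hq h2' (by linarith) (by linarith) with h | h
    · exact h.1
    · have := h.2
      omega
  have key : ∃ z, ok k q (z - x) ∧ ok k q (z - (x + 1)) ∧ ok k q (z - D) := by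
    by_cases hg : (2 : ℤ) * q + 1 ≤ D - x
    · refine ⟨x + 1 + q, ok_of (by linarith) (by linarith), ok_of (by linarith) (by linarith), ?_⟩
      exact ok_comm (ok_of (by linarith) (by linarith))
    · refine ⟨D + q, ok_of (by linarith) (by linarith), ok_of (by linarith) (by linarith),
        ok_of (by linarith) (by linarith)⟩
  obtain ⟨z, hz1, hz2, hz3⟩ := key
  refine ⟨z, hz1, hz2, ?_⟩
  have := ok_shift t hz3
  convert this using 1
  rw [hD]; ring

/-- changing the colour of the extra vertex -/
theorem reach_z (hk : 0 < k) (hq : 0 < q) {P : Bool × Fin 4 → ℤ} (hP : CValid k q P) {z z' : ℤ}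
    (hz : zok k q P z) (hz' : zok k q P z') :
    Relation.ReflTransGen (Step G k q) (red k (ext P z)) (red k (ext P z')) := by
  refine reach_of_differ hk hq (zvalid_ext hP hz) (zvalid_ext hP hz') none ?_
  rintro (_ | y) hy
  · exact absurd rfl hy
  · rfl

/-- unit moves of any vertex of the cube -/
theorem CR.unit (hk : 4 * q ≤ k) (hq : 0 < q) {P P' : Bool × Fin 4 → ℤ} (hP : CValid k q P)
    (hP' : CValid k q P') (x : Bool × Fin 4) (hx : P' x = P x + 1 ∨ P x = P' x + 1)
    (h : ∀ y, y ≠ x → P y = P' y) : CR k q P P' := by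
  have hk0 : 0 < k := by omega
  by_cases hx0 : x = (false, 0)
  · -- the vertex `a 0`
    subst hx0
    have hb : P (true, 1) = P' (true, 1) := h _ (by simp)
    have hv1 : ok k q (P (true, 1) - P (false, 0)) := ok_comm (hP 0 1 (by decide))
    have hv2 : ok k q (P (true, 1) - P' (false, 0)) := by
      rw [hb]; exact ok_comm (hP' 0 1 (by decide))
    have : ∃ w, ok k q (w - P (false, 0)) ∧ ok k q (w - P' (false, 0)) ∧
        ok k q (w - P (true, 1)) := by
      rcases hx with hx | hx
      · rw [hx] at hv2 ⊢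
        exact zplace hk hq _ _ hv1 hv2
      · rw [hx] at hv1 ⊢
        obtain ⟨w, h1, h2, h3⟩ := zplace hk hq _ _ hv2 hv1
        exact ⟨w, h2, h1, h3⟩
    obtain ⟨w, h1, h2, h3⟩ := this
    intro z hz
    have hw : zok k q P w := ⟨h1, h3⟩
    have hw' : zok k q P' w := ⟨h2, hb ▸ h3⟩
    refine ⟨w, hw', (reach_z hk0 hq hP hz hw).trans ?_⟩
    refine reach_of_differ hk0 hq (zvalid_ext hP hw) (zvalid_ext hP' hw') (some (false, 0)) ?_
    rintro (_ | y) hy
    · rfl
    · exact h y (fun hc => hy (by rw [hc]))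
  · by_cases hx1 : x = (true, 1)
    · -- the vertex `b 1`
      subst hx1
      have hb : P (false, 0) = P' (false, 0) := h _ (by simp)
      have hv1 : ok k q (P (false, 0) - P (true, 1)) := hP 0 1 (by decide)
      have hv2 : ok k q (P (false, 0) - P' (true, 1)) := by
        rw [hb]; exact hP' 0 1 (by decide)
      have : ∃ w, ok k q (w - P (true, 1)) ∧ ok k q (w - P' (true, 1)) ∧
          ok k q (w - P (false, 0)) := by
        rcases hx with hx | hx
        · rw [hx] at hv2 ⊢
          exact zplace hk hq _ _ hv1 hv2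
        · rw [hx] at hv1 ⊢
          obtain ⟨w, h1, h2, h3⟩ := zplace hk hq _ _ hv2 hv1
          exact ⟨w, h2, h1, h3⟩
      obtain ⟨w, h1, h2, h3⟩ := this
      intro z hz
      have hw : zok k q P w := ⟨h3, h1⟩
      have hw' : zok k q P' w := ⟨hb ▸ h3, h2⟩
      refine ⟨w, hw', (reach_z hk0 hq hP hz hw).trans ?_⟩
      refine reach_of_differ hk0 hq (zvalid_ext hP hw) (zvalid_ext hP' hw') (some (true, 1)) ?_
      rintro (_ | y) hy
      · rfl
      · exact h y (fun hc => hy (by rw [hc]))
    · exact CR.move_other hk0 hq hP hP' x hx0 hx1 h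

/-- The colours of the cube part are arranged around the circle in the cyclic order
`a (p 0), b (p 1), a (p 2), b (p 3)`, and `b (p 0), a (p 1), b (p 2), a (p 3)`. -/
structure Aligned (k q : ℕ) (p : Equiv.Perm (Fin 4)) (P : Bool × Fin 4 → ℤ) : Prop where
  a01 : (q : ℤ) ≤ P (true, p 1) - P (false, p 0)
  a12 : (q : ℤ) ≤ P (false, p 2) - P (true, p 1)
  a23 : (q : ℤ) ≤ P (true, p 3) - P (false, p 2)
  a30 : (q : ℤ) ≤ P (false, p 0) + k - P (true, p 3)
  b01 : (q : ℤ) ≤ P (false, p 1) - P (true, p 0)
  b12 : (q : ℤ) ≤ P (true, p 2) - P (false, p 1)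
  b23 : (q : ℤ) ≤ P (false, p 3) - P (true, p 2)
  b30 : (q : ℤ) ≤ P (true, p 0) + k - P (false, p 3)
  l0 : -(q : ℤ) ≤ P (false, p 0) - P (true, p 0)
  l1 : -(q : ℤ) ≤ P (false, p 1) - P (true, p 1)
  l2 : -(q : ℤ) ≤ P (false, p 2) - P (true, p 2)
  l3 : -(q : ℤ) ≤ P (false, p 3) - P (true, p 3)
  u0 : P (false, p 0) - P (true, p 0) ≤ q
  u1 : P (false, p 1) - P (true, p 1) ≤ q
  u2 : P (false, p 2) - P (true, p 2) ≤ q
  u3 : P (false, p 3) - P (true, p 3) ≤ q

theorem Aligned.cvalid {p : Equiv.Perm (Fin 4)} {P : Bool × Fin 4 → ℤ} (h : Aligned k q p P) :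
    CValid k q P := by
  obtain ⟨a01, a12, a23, a30, b01, b12, b23, b30, l0, l1, l2, l3, u0, u1, u2, u3⟩ := h
  intro i j hij
  obtain ⟨i, rfl⟩ := p.surjective i
  obtain ⟨j, rfl⟩ := p.surjective j
  have hij' : i ≠ j := fun h => hij (by rw [h])
  fin_cases i <;> fin_cases j <;> simp only [Fin.zero_eta, Fin.mk_one, Fin.reduceFinMk] at * <;>
    first
    | exact absurd rfl hij'
    | exact ok_of (by linarith) (by linarith)
    | exact ok_comm (ok_of (by linarith) (by linarith))

theorem unstick (hk : 4 * q < k) (hq : 0 < q) (p : Equiv.Perm (Fin 4)) (n : ℕ) :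
    ∀ P : Bool × Fin 4 → ℤ, Aligned k q p P →
      4 * (q : ℤ) ≤ (P (false, p 0) - P (true, p 0)) + (P (true, p 1) - P (false, p 1)) +
        (P (false, p 2) - P (true, p 2)) + (P (true, p 3) - P (false, p 3)) + n →
      ∃ P', CR k q P P' ∧ CValid k q P' ∧ ∃ i, ok k q (P' (false, i) - P' (true, i)) := by
  have hk' : (4 : ℤ) * q < k := by exact_mod_cast hk
  have hq' : (0 : ℤ) < q := by exact_mod_cast hq
  have hp : ∀ i j, p i = p j ↔ i = j := fun i j => p.injective.eq_iff
  induction n with
  | zero =>
    intro P h hn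
    refine ⟨P, CR.refl P, h.cvalid, p 0, ?_⟩
    have := h.u0
    have := h.l1
    have := h.u2
    have := h.l3
    exact ok_of (by push_cast at hn; linarith) (by push_cast at hn; linarith)
  | succ n ih =>
    intro P h hn
    -- if some pair is already at distance `q` we are done
    by_cases hd : ∃ i, ok k q (P (false, i) - P (true, i))
    · exact ⟨P, CR.refl P, h.cvalid, hd⟩
    push Not at hd
    have e0 : P (false, p 0) - P (true, p 0) ≠ q := fun e =>
      hd (p 0) (by rw [e]; exact ok_of le_rfl (by linarith))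
    have e1 : P (true, p 1) - P (false, p 1) ≠ q := fun e =>
      hd (p 1) (ok_comm (by rw [e]; exact ok_of le_rfl (by linarith)))
    have e2 : P (false, p 2) - P (true, p 2) ≠ q := fun e =>
      hd (p 2) (by rw [e]; exact ok_of le_rfl (by linarith))
    have e3 : P (true, p 3) - P (false, p 3) ≠ q := fun e =>
      hd (p 3) (ok_comm (by rw [e]; exact ok_of le_rfl (by linarith)))
    have hv := h.cvalid
    obtain ⟨a01, a12, a23, a30, b01, b12, b23, b30, l0, l1, l2, l3, u0, u1, u2, u3⟩ := h
    have hg : (q : ℤ) < P (true, p 1) - P (false, p 0) ∨ (q : ℤ) < P (false, p 2) - P (true, p 1) ∨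
        (q : ℤ) < P (true, p 3) - P (false, p 2) ∨ (q : ℤ) < P (false, p 0) + k - P (true, p 3) := by
      by_contra hc
      push Not at hc
      linarith [hc.1, hc.2.1, hc.2.2.1, hc.2.2.2]
    have key : ∀ x : Bool × Fin 4,
        Aligned k q p (Function.update P x (P x + 1)) →
        4 * (q : ℤ) ≤ (Function.update P x (P x + 1) (false, p 0)
            - Function.update P x (P x + 1) (true, p 0)) +
          (Function.update P x (P x + 1) (true, p 1) - Function.update P x (P x + 1) (false, p 1)) +
          (Function.update P x (P x + 1) (false, p 2) - Function.update P x (P x + 1) (true, p 2)) +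
          (Function.update P x (P x + 1) (true, p 3) - Function.update P x (P x + 1) (false, p 3)) +
          n → ∃ P', CR k q P P' ∧ CValid k q P' ∧ ∃ i, ok k q (P' (false, i) - P' (true, i)) := by
      intro x hA hn'
      obtain ⟨P', h1, h2⟩ := ih _ hA hn'
      refine ⟨P', (CR.unit hk.le hq hv hA.cvalid x (Or.inl ?_) ?_).trans h1, h2⟩
      · simp
      · intro y hy
        rw [Function.update_of_ne hy]
    push_cast at hn
    rcases hg with hg | hg | hg | hg
    · apply key (false, p 0)
      · constructor <;>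
        simp [hp] <;> omega
      · simp [hp]; omega
    · apply key (true, p 1)
      · constructor <;>
        simp [hp] <;> omega
      · simp [hp]; omega
    · apply key (false, p 2)
      · constructor <;>
        simp [hp] <;> omega
      · simp [hp]; omega
    · apply key (true, p 3)
      · constructor <;>
        simp [hp] <;> omega
      · simp [hp]; omega

theorem exists_aligned (hk : 4 * q < k) (hq : 0 < q) (P : Bool × Fin 4 → ℤ) (hP : CValid k q P)
    (hd : ∀ i, ¬ ok k q (P (false, i) - P (true, i))) :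
    ∃ P', (∀ x, (k : ℤ) ∣ P x - P' x) ∧ ∃ p, Aligned k q p P' := by
  have hk' : (4 : ℤ) * q < k := by exact_mod_cast hk
  have hq' : (0 : ℤ) < q := by exact_mod_cast hq
  have hk0 : 0 < k := by omega
  -- representatives of the `b`'s
  have h1 : ∀ j : Fin 4, ∃ b' : ℤ, (k : ℤ) ∣ P (true, j) - b' ∧
      (j = 0 → |P (false, 0) - b'| < q) ∧
      (j ≠ 0 → (q : ℤ) ≤ b' - P (false, 0) ∧ b' - P (false, 0) ≤ k - q) := by
    intro j
    by_cases hj : j = 0
    · subst hj
      obtain ⟨t, ht⟩ := exists_rep_of_not_ok hk0 (hd 0)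
      refine ⟨P (true, 0) - t * k, ⟨t, by ring⟩, fun _ => ?_, fun h => absurd rfl h⟩
      have e : P (false, 0) - (P (true, 0) - t * k) = P (false, 0) - P (true, 0) + t * k := by ring
      rw [e]; exact ht
    · obtain ⟨t, ht1, ht2⟩ := ok_comm (hP 0 j (Ne.symm hj))
      refine ⟨P (true, j) + t * k, ⟨-t, by ring⟩, fun h => absurd h hj, fun _ => ?_⟩
      constructor <;> linarith
  choose b' hb1 hb2 hb3 using h1
  have h2 : ∀ j : Fin 4, ∃ a' : ℤ, (k : ℤ) ∣ P (false, j) - a' ∧
      (j = 0 → a' = P (false, 0)) ∧ |a' - b' j| < q := by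
    intro j
    by_cases hj : j = 0
    · subst hj
      exact ⟨P (false, 0), by simp, fun _ => rfl, hb2 0 rfl⟩
    · obtain ⟨t, ht⟩ := exists_rep_of_not_ok hk0 (hd j)
      obtain ⟨s, hs⟩ := hb1 j
      refine ⟨P (false, j) + (t - s) * k, ⟨-(t - s), by ring⟩, fun h => absurd h hj, ?_⟩
      have e : P (false, j) + (t - s) * k - b' j = P (false, j) - P (true, j) + t * k := by
        linear_combination hs
      rw [e]; exact ht
  choose a' ha1 ha2 ha3 using h2
  have ha0 := ha2 0 rfl
  let P' : Bool × Fin 4 → ℤ := fun x => bif x.1 then b' x.2 else a' x.2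
  have hPa : ∀ j, P' (false, j) = a' j := fun j => rfl
  have hPb : ∀ j, P' (true, j) = b' j := fun j => rfl
  have hdv : ∀ x, (k : ℤ) ∣ P x - P' x := by
    rintro ⟨_ | _, j⟩
    · exact ha1 j
    · exact hb1 j
  refine ⟨P', hdv, ?_⟩
  have hP' : CValid k q P' := CValid.of_dvd hdv hP
  -- sort
  let f : Fin 4 → ℤ := fun j => if j = 0 then a' 0 else b' j
  let p := Tuple.sort f
  have hmono : Monotone (f ∘ p) := Tuple.monotone_sort f
  have hf0 : f 0 = a' 0 := by simp [f]
  have hfj : ∀ j, j ≠ 0 → f j = b' j := fun j hj => by simp [f, hj]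
  have hp0 : p 0 = 0 := by
    by_contra hc
    obtain ⟨i, hi⟩ := p.surjective 0
    have h3 : f (p 0) ≤ f (p i) := hmono (Fin.zero_le i)
    rw [hi, hf0, hfj _ hc, ha0] at h3
    have := (hb3 _ hc).1
    linarith
  have hpj : ∀ j, j ≠ 0 → p j ≠ 0 := fun j hj hc => hj (p.injective (hc.trans hp0.symm))
  have h12 : b' (p 1) ≤ b' (p 2) := by
    have := hmono (show (1 : Fin 4) ≤ 2 by decide)
    simp only [Function.comp] at this
    rwa [hfj _ (hpj 1 (by decide)), hfj _ (hpj 2 (by decide))] at this
  have h23 : b' (p 2) ≤ b' (p 3) := by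
    have := hmono (show (2 : Fin 4) ≤ 3 by decide)
    simp only [Function.comp] at this
    rwa [hfj _ (hpj 2 (by decide)), hfj _ (hpj 3 (by decide))] at this
  have B1 := hb3 _ (hpj 1 (by decide))
  have B2 := hb3 _ (hpj 2 (by decide))
  have B3 := hb3 _ (hpj 3 (by decide))
  have A0 := abs_lt.1 (ha3 0)
  have A1 := abs_lt.1 (ha3 (p 1))
  have A2 := abs_lt.1 (ha3 (p 2))
  have A3 := abs_lt.1 (ha3 (p 3))
  have hne : ∀ i j : Fin 4, i ≠ j → p i ≠ p j := fun i j h hc => h (p.injective hc)
  have hok : ∀ i j : Fin 4, i ≠ j → -(k : ℤ) < a' (p i) - b' (p j) → a' (p i) - b' (p j) < k →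
      ((q : ℤ) ≤ a' (p i) - b' (p j) ∧ a' (p i) - b' (p j) ≤ k - q) ∨
      (-((k : ℤ) - q) ≤ a' (p i) - b' (p j) ∧ a' (p i) - b' (p j) ≤ -(q : ℤ)) := by
    intro i j hij h1 h2
    exact ok_abs hq (hP' (p i) (p j) (hne i j hij)) h1 h2
  rw [ha0] at A0
  have c21 := hok 2 1 (by decide) (by linarith) (by linarith)
  have c23 := hok 2 3 (by decide) (by linarith) (by linarith)
  have c12 := hok 1 2 (by decide) (by linarith) (by linarith)
  have c32 := hok 3 2 (by decide) (by linarith) (by linarith)
  have e12 : (q : ℤ) ≤ b' (p 2) - a' (p 1) := by omega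
  have e32 : (q : ℤ) ≤ a' (p 3) - b' (p 2) := by omega
  have e21 : (q : ℤ) ≤ a' (p 2) - b' (p 1) := by omega
  have e23 : (q : ℤ) ≤ b' (p 3) - a' (p 2) := by omega
  have c10 := hok 1 0 (by decide) (by rw [hp0]; linarith) (by rw [hp0]; linarith)
  rw [hp0] at c10
  have e10 : (q : ℤ) ≤ a' (p 1) - b' 0 := by omega
  have e30 : a' (p 3) - b' 0 ≤ k - q := by
    by_cases hlt : a' (p 3) - b' 0 < k
    · have c30 := hok 3 0 (by decide) (by rw [hp0]; linarith) (by rw [hp0]; linarith)
      rw [hp0] at c30
      omega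
    · exfalso
      have h5 := hP' (p 3) (p 0) (hne 3 0 (by decide))
      rw [hp0, hPa, hPb] at h5
      have h6 := ok_shift (-1) h5
      rcases ok_abs hq h6 (by linarith) (by linarith) with h | h
      · linarith [h.1]
      · linarith [h.2]
  refine ⟨p, ?_⟩
  constructor <;> simp only [hPa, hPb, hp0, ha0] <;> linarith

/-- every colouring of the cube part reaches one in which some `a i` and `b i` are far apart -/
theorem reach_unstuck (hk : 4 * q < k) (hq : 0 < q) (P : Bool × Fin 4 → ℤ) (hP : CValid k q P) :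
    ∃ P', CR k q P P' ∧ CValid k q P' ∧ ∃ i, ok k q (P' (false, i) - P' (true, i)) := by
  by_cases hd : ∃ i, ok k q (P (false, i) - P (true, i))
  · exact ⟨P, CR.refl P, hP, hd⟩
  · push Not at hd
    obtain ⟨P', h1, p, h2⟩ := exists_aligned hk hq P hP hd
    obtain ⟨P'', h3, h4⟩ := unstick hk hq p (8 * q) P' h2 (by
      have := h2.l0
      have := h2.u1
      have := h2.l2
      have := h2.u3
      push_cast
      linarith)
    exact ⟨P'', (CR.of_dvd h1).trans h3, h4⟩

/-- changing the colours of vertices of one side of the cube, other than the neighbour of `z` -/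
theorem CR.multi (hk : 0 < k) (hq : 0 < q) {P P' : Bool × Fin 4 → ℤ} (hP : CValid k q P)
    (hP' : CValid k q P') (s : Bool) (h : ∀ i, P (!s, i) = P' (!s, i))
    (h0 : P (false, 0) = P' (false, 0)) (h1 : P (true, 1) = P' (true, 1)) : CR k q P P' := by
  let Q : ℕ → Bool × Fin 4 → ℤ := fun n x => if x.1 = s ∧ x.2.val < n then P' x else P x
  have hQ : ∀ n, CValid k q (Q n) := by
    intro n i j hij
    cases s
    · have e1 : Q n (true, j) = P (true, j) := by simp [Q]
      have e2 : P (true, j) = P' (true, j) := h j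
      rw [e1]
      by_cases hc : i.val < n
      · have e3 : Q n (false, i) = P' (false, i) := by simp [Q, hc]
        rw [e3, e2]
        exact hP' i j hij
      · have e3 : Q n (false, i) = P (false, i) := by simp [Q, hc]
        rw [e3]
        exact hP i j hij
    · have e1 : Q n (false, i) = P (false, i) := by simp [Q]
      have e2 : P (false, i) = P' (false, i) := h i
      rw [e1]
      by_cases hc : j.val < n
      · have e3 : Q n (true, j) = P' (true, j) := by simp [Q, hc]
        rw [e3, e2]
        exact hP' i j hij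
      · have e3 : Q n (true, j) = P (true, j) := by simp [Q, hc]
        rw [e3]
        exact hP i j hij
  have hstep : ∀ n, n < 4 → CR k q (Q n) (Q (n + 1)) := by
    intro n hn
    have hagree : ∀ y : Bool × Fin 4, y ≠ (s, ⟨n, hn⟩) → Q n y = Q (n + 1) y := by
      rintro ⟨t, i⟩ hy
      simp only [Q]
      by_cases ht : t = s
      · subst ht
        have : i.val ≠ n := fun hc => hy (by
          have : i = ⟨n, hn⟩ := Fin.ext hc
          rw [this])
        by_cases hi : i.val < n
        · simp [hi, Nat.lt_succ_of_lt hi]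
        · have : ¬ i.val < n + 1 := by omega
          simp [hi, this]
      · simp [ht]
    by_cases hx0 : ((s, ⟨n, hn⟩) : Bool × Fin 4) = (false, 0)
    · have : Q n = Q (n + 1) := by
        funext y
        by_cases hy : y = (s, ⟨n, hn⟩)
        · rw [hy, hx0]
          simp only [Q]
          split_ifs <;> simp [h0]
        · exact hagree y hy
      rw [this]
      exact CR.refl _
    · by_cases hx1 : ((s, ⟨n, hn⟩) : Bool × Fin 4) = (true, 1)
      · have : Q n = Q (n + 1) := by
          funext y
          by_cases hy : y = (s, ⟨n, hn⟩)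
          · rw [hy, hx1]
            simp only [Q]
            split_ifs <;> simp [h1]
          · exact hagree y hy
        rw [this]
        exact CR.refl _
      · exact CR.move_other hk hq (hQ n) (hQ (n + 1)) _ hx0 hx1 hagree
  have e0 : Q 0 = P := by funext x; simp [Q]
  have e4 : Q 4 = P' := by
    funext x
    obtain ⟨t, i⟩ := x
    simp only [Q]
    by_cases ht : t = s
    · simp [ht, i.isLt]
    · have : t = !s := by cases t <;> cases s <;> simp_all
      subst this
      simp [h i]
  have h01 := hstep 0 (by norm_num)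
  have h12 := hstep 1 (by norm_num)
  have h23 := hstep 2 (by norm_num)
  have h34 := hstep 3 (by norm_num)
  have := ((h01.trans h12).trans h23).trans h34
  rwa [e0, e4] at this

/-- the colouring with all `a`'s coloured `c` and all `b`'s coloured `d` -/
def T (c d : ℤ) : Bool × Fin 4 → ℤ := fun x => bif x.1 then d else c

theorem T_valid {c d : ℤ} (h : ok k q (c - d)) : CValid k q (T c d) := fun _ _ _ => h

/-- every colouring of the cube part reaches one of the form `T c d` -/
theorem reach_T (hk : 4 * q < k) (hq : 0 < q) (P : Bool × Fin 4 → ℤ) (hP : CValid k q P) :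
    ∃ c d, CR k q P (T c d) ∧ ok k q (c - d) := by
  have hk0 : 0 < k := by omega
  obtain ⟨P0, h0, hP0, i, hi⟩ := reach_unstuck hk hq P hP
  -- give some `a j` the colour of `a i`
  have h1 : ∃ P1, CR k q P0 P1 ∧ CValid k q P1 ∧ ∀ m, ok k q (P1 (false, m) - P1 (true, 1)) := by
    obtain ⟨j, hj0, hji, hj1⟩ : ∃ j : Fin 4, j ≠ 0 ∧ j ≠ i ∧ (j = 1 ∨ i = 1) := by
      by_cases h : i = 1
      · exact ⟨2, by decide, by rw [h]; decide, Or.inr h⟩
      · exact ⟨1, by decide, Ne.symm h, Or.inl rfl⟩
    have hne : ∀ m, ((true, m) : Bool × Fin 4) ≠ (false, j) := fun m => by simp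
    have hv : CValid k q (Function.update P0 (false, j) (P0 (false, i))) := by
      intro m l hml
      rw [Function.update_of_ne (hne l)]
      by_cases hm : m = j
      · subst hm
        rw [Function.update_self]
        by_cases hl : l = i
        · rw [hl]; exact hi
        · exact hP0 i l (Ne.symm hl)
      · rw [Function.update_of_ne (by simp [hm])]
        exact hP0 m l hml
    refine ⟨Function.update P0 (false, j) (P0 (false, i)), ?_, hv, ?_⟩
    · refine CR.move_other hk0 hq hP0 hv (false, j) (by simp [hj0]) (by simp) ?_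
      intro y hy
      rw [Function.update_of_ne hy]
    · intro m
      by_cases hm : m = 1
      · subst hm
        rcases hj1 with hj1 | hj1
        · -- `j = 1`, `i ≠ 1`
          subst hj1
          rw [Function.update_self, Function.update_of_ne (hne 1)]
          exact hP0 i 1 (Ne.symm hji)
        · -- `i = 1`
          subst hj1
          rw [Function.update_of_ne (hne 1), Function.update_of_ne (by simp [Ne.symm hji])]
          exact hi
      · exact hv m 1 hm
  obtain ⟨P1, h1, hP1, hm1⟩ := h1
  -- give all `b`'s the colour of `b 1`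
  let P2 : Bool × Fin 4 → ℤ := fun x => bif x.1 then P1 (true, 1) else P1 x
  have hP2 : CValid k q P2 := fun m l _ => hm1 m
  have h2 : CR k q P1 P2 :=
    CR.multi hk0 hq hP1 hP2 true (fun _ => rfl) rfl rfl
  -- give all `a`'s the colour of `a 0`
  have h3 : CR k q P2 (T (P1 (false, 0)) (P1 (true, 1))) :=
    CR.multi hk0 hq hP2 (T_valid (hm1 0)) false (fun _ => rfl) rfl rfl
  exact ⟨_, _, ((h0.trans h1).trans h2).trans h3, hm1 0⟩

/-- moving the common colour of the `a`'s by one unit -/
theorem T_unit_a (hk : 4 * q < k) (hq : 0 < q) {c c' d : ℤ} (h : ok k q (c - d))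
    (h' : ok k q (c' - d)) (hc : c' = c + 1 ∨ c = c' + 1) : CR k q (T c d) (T c' d) := by
  have hk0 : 0 < k := by omega
  have hv : CValid k q (Function.update (T c d) (false, 0) c') := by
    intro m l _
    rw [Function.update_of_ne (a := ((true, l) : Bool × Fin 4)) (by simp)]
    by_cases hm : m = 0
    · rw [hm, Function.update_self]
      exact h'
    · rw [Function.update_of_ne (by simp [hm])]
      exact h
  have h1 : CR k q (T c d) (Function.update (T c d) (false, 0) c') := by
    refine CR.unit hk.le hq (T_valid h) hv (false, 0) ?_ ?_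
    · rw [Function.update_self]
      exact hc
    · intro y hy
      rw [Function.update_of_ne hy]
  refine h1.trans (CR.multi hk0 hq hv (T_valid h') false ?_ ?_ ?_)
  · intro i
    rw [Function.update_of_ne (by simp)]
    rfl
  · rw [Function.update_self]
    rfl
  · rw [Function.update_of_ne (by simp)]
    rfl

/-- moving the common colour of the `b`'s by one unit -/
theorem T_unit_b (hk : 4 * q < k) (hq : 0 < q) {c d d' : ℤ} (h : ok k q (c - d))
    (h' : ok k q (c - d')) (hc : d' = d + 1 ∨ d = d' + 1) : CR k q (T c d) (T c d') := by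
  have hk0 : 0 < k := by omega
  have hv : CValid k q (Function.update (T c d) (true, 1) d') := by
    intro m l _
    rw [Function.update_of_ne (by simp)]
    by_cases hl : l = 1
    · rw [hl, Function.update_self]
      exact h'
    · rw [Function.update_of_ne (by simp [hl])]
      exact h
  have h1 : CR k q (T c d) (Function.update (T c d) (true, 1) d') := by
    refine CR.unit hk.le hq (T_valid h) hv (true, 1) ?_ ?_
    · rw [Function.update_self]
      exact hc
    · intro y hy
      rw [Function.update_of_ne hy]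
  refine h1.trans (CR.multi hk0 hq hv (T_valid h') true ?_ ?_ ?_)
  · intro i
    rw [Function.update_of_ne (by simp)]
    rfl
  · rw [Function.update_of_ne (by simp)]
    rfl
  · rw [Function.update_self]
    rfl

theorem T_to_tight (hk : 4 * q < k) (hq : 0 < q) (n : ℕ) :
    ∀ c d : ℤ, d - c = q + n → d - c ≤ k - q → CR k q (T c d) (T c (c + q)) := by
  have hk' : (4 : ℤ) * q < k := by exact_mod_cast hk
  have hq' : (0 : ℤ) < q := by exact_mod_cast hq
  induction n with
  | zero =>
    intro c d h1 _
    have : d = c + q := by push_cast at h1; linarith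
    rw [this]
    exact CR.refl _
  | succ n ih =>
    intro c d h1 h2
    push_cast at h1
    refine CR.trans (T_unit_b hk hq (d' := d - 1) (ok_comm (ok_of (by linarith) h2))
      (ok_comm (ok_of (by linarith) (by linarith))) (Or.inr (by ring))) ?_
    exact ih c (d - 1) (by linarith) (by linarith)

theorem T_rotate (hk : 4 * q < k) (hq : 0 < q) (n : ℕ) :
    ∀ c : ℤ, CR k q (T c (c + q)) (T (c + n) (c + n + q)) := by
  have hk' : (4 : ℤ) * q < k := by exact_mod_cast hk
  have hq' : (0 : ℤ) < q := by exact_mod_cast hq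
  induction n with
  | zero =>
    intro c
    simpa using CR.refl _
  | succ n ih =>
    intro c
    refine (ih c).trans ?_
    push_cast
    have e1 : CR k q (T (c + n) (c + n + q)) (T (c + n) (c + (n + 1) + q)) :=
      T_unit_b hk hq (ok_comm (ok_of (by linarith) (by linarith)))
        (ok_comm (ok_of (by linarith) (by linarith))) (Or.inl (by ring))
    refine e1.trans (T_unit_a hk hq (ok_comm (ok_of (by linarith) (by linarith)))
        (ok_comm (ok_of (by linarith) (by linarith))) (Or.inl (by ring)))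

/-- every `T c d` reaches `T 0 q` -/
theorem T_reach (hk : 4 * q < k) (hq : 0 < q) (c d : ℤ) (h : ok k q (c - d)) :
    CR k q (T c d) (T 0 q) := by
  have hk' : (4 : ℤ) * q < k := by exact_mod_cast hk
  have hq' : (0 : ℤ) < q := by exact_mod_cast hq
  have hk0 : (0 : ℤ) < k := by linarith
  obtain ⟨t, ht1, ht2⟩ := ok_comm h
  -- normalise `d`
  have h1 : CR k q (T c d) (T c (d + t * k)) := by
    refine CR.of_dvd ?_
    rintro ⟨_ | _, j⟩
    · exact ⟨0, by simp [T]⟩
    · exact ⟨-t, by simp [T]; ring⟩
  have h2 : CR k q (T c (d + t * k)) (T c (c + q)) := by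
    refine T_to_tight hk hq (d + t * k - c - q).toNat c (d + t * k) ?_ ?_
    · rw [Int.toNat_of_nonneg (by linarith)]; ring
    · linarith
  have h3 := T_rotate hk hq (k - c % k).toNat c
  have h4 := Int.emod_lt_of_pos c hk0
  rw [Int.toNat_of_nonneg (by linarith)] at h3
  have h5 := Int.emod_add_mul_ediv c k
  have h6 : CR k q (T (c + (k - c % k)) (c + (k - c % k) + q)) (T 0 q) := by
    refine CR.of_dvd ?_
    rintro ⟨_ | _, j⟩
    · exact ⟨1 + c / k, by simp [T]; linarith⟩
    · exact ⟨1 + c / k, by simp [T]; linarith⟩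
  exact ((h1.trans h2).trans h3).trans h6

theorem ext_restrict (F : V → ℤ) : ext (fun x => F (some x)) (F none) = F := by
  funext v
  rcases v with _ | v <;> rfl

/-- every colouring reaches the canonical one -/
theorem reach_canonical (hk : 4 * q < k) (hq : 0 < q) (f : V → ℕ) (hf : IsColouring G k q f) :
    Relation.ReflTransGen (Step G k q) f (red k (ext (T 0 q) (2 * q))) := by
  have hk' : (4 : ℤ) * q < k := by exact_mod_cast hk
  have hq' : (0 : ℤ) < q := by exact_mod_cast hq
  have hk0 : 0 < k := by omega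
  let F : V → ℤ := fun v => (f v : ℤ)
  have hF : ∀ u v, G.Adj u v → ok k q (F u - F v) := by
    intro u v huv
    obtain ⟨h1, h2⟩ := hf.2 u v huv
    rcases abs_cases ((f u : ℤ) - f v) with ⟨h3, _⟩ | ⟨h3, _⟩
    · rw [h3] at h1 h2
      exact ok_of h1 h2
    · rw [h3] at h1 h2
      have := ok_neg (ok_of h1 h2)
      rwa [neg_neg] at this
  have hred : red k F = f := by
    funext v
    have h1 := hf.1 v
    have : F v % k = f v := Int.emod_eq_of_lt (by simp [F]) (by simpa [F] using h1)
    unfold red
    rw [this]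
    simp
  have hP : CValid k q (fun x => F (some x)) := fun i j hij =>
    hF _ _ ⟨by simp, hij⟩
  have hz : zok k q (fun x => F (some x)) (F none) :=
    ⟨hF _ _ (Or.inl rfl), hF _ _ (Or.inr rfl)⟩
  obtain ⟨c, d, h1, h2⟩ := reach_T hk hq _ hP
  obtain ⟨z', h3, h4⟩ := (h1.trans (T_reach hk hq c d h2)) _ hz
  rw [ext_restrict, hred] at h4
  refine h4.trans (reach_z hk0 hq (T_valid ?_) h3 ⟨?_, ?_⟩)
  · exact ok_comm (ok_of (by linarith) (by linarith))
  · exact ok_of (by simp [T]; linarith) (by simp [T]; linarith)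
  · exact ok_of (by simp [T]; linarith) (by simp [T]; linarith)

end Core

theorem Step.symm {V : Type} {G : SimpleGraph V} {k q : ℕ} {f g : V → ℕ} (h : Step G k q f g) :
    Step G k q g f := by
  obtain ⟨h1, h2, v, h3, h4⟩ := h
  exact ⟨h2, h1, v, h3.symm, fun w hw => (h4 w hw).symm⟩

theorem mixing_of_lt {k q : ℕ} (hk : 4 * q < k) (hq : 0 < q) : Mixing G k q := by
  intro f g hf hg
  have h1 := reach_canonical hk hq f hf
  have h2 := reach_canonical hk hq g hg
  have h3 : ∀ g', Relation.ReflTransGen (Step G k q) g g' →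
      Relation.ReflTransGen (Step G k q) g' g := by
    intro g' hg'
    induction hg' with
    | refl => exact Relation.ReflTransGen.refl
    | tail _ hs ih => exact Relation.ReflTransGen.head hs.symm ih
  exact h1.trans (h3 _ h2)

/-! ### `G` is not `(4,1)`-mixing -/

/-- the colouring `a i, b i ↦ i`, `z ↦ 2` -/
def frozen : V → ℕ
  | none => 2
  | some x => x.2.val

/-- the colouring `a i ↦ 0`, `b i ↦ 1`, `z ↦ 2` -/
def other : V → ℕ
  | none => 2
  | some x => bif x.1 then 1 else 0

theorem frozen_col : IsColouring G 4 1 frozen := by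
  constructor
  · decide
  · decide

theorem other_col : IsColouring G 4 1 other := by
  constructor
  · decide
  · decide

theorem not_mixing : ¬ Mixing G 4 1 := by
  intro h
  have h1 := h frozen other frozen_col other_col
  have h2 : ∀ g, Relation.ReflTransGen (Step G 4 1) frozen g → ∀ x, g (some x) = x.2.val := by
    intro g hg
    induction hg with
    | refl => intro x; rfl
    | @tail g g' _ hs ih =>
      intro x
      obtain ⟨-, hg', v, hv, hw⟩ := hs
      by_cases hx : some x = v
      · -- the vertex `x` cannot have moved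
        subst hx
        obtain ⟨s, i⟩ := x
        have hlt : g' (some (s, i)) < 4 := hg'.1 _
        by_contra hc
        have hc' : i ≠ ⟨g' (some (s, i)), hlt⟩ := by
          intro e
          exact hc (congrArg Fin.val e).symm
        have hadj : G.Adj (some (s, i)) (some (!s, ⟨g' (some (s, i)), hlt⟩)) :=
          ⟨by simp, hc'⟩
        have h3 := (hg'.2 _ _ hadj).1
        have h4 : g' (some (!s, ⟨g' (some (s, i)), hlt⟩)) = g' (some (s, i)) := by
          rw [← hw _ (by simp), ih]
        rw [h4] at h3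
        simp at h3
      · rw [← hw _ hx, ih]
  have h3 := h2 other h1 (false, 1)
  simp [other] at h3

theorem mem_R_iff (r : ℚ) : r ∈ R G ↔ 4 < r := by
  constructor
  · intro h
    by_contra hc
    push Not at hc
    exact not_mixing (h 4 1 (by norm_num) (by norm_num) (by simpa using hc))
  · intro h k q hk hq hkq
    have hq' : (0 : ℚ) < q := by exact_mod_cast hq
    have h1 : (4 : ℚ) < k / q := lt_of_lt_of_le h hkq
    rw [lt_div_iff₀ hq'] at h1
    exact mixing_of_lt (by exact_mod_cast h1) hq

theorem Mc_eq : Mc G = 4 := by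
  unfold Mc
  apply le_antisymm
  · by_contra hc
    push Not at hc
    obtain ⟨r, hr1, hr2⟩ := exists_rat_btwn hc
    have h1 : (r : ℝ) ∈ ((fun r : ℚ => (r : ℝ)) '' R G) :=
      ⟨r, (mem_R_iff r).2 (by exact_mod_cast hr1), rfl⟩
    have h2 : BddBelow ((fun r : ℚ => (r : ℝ)) '' R G) := by
      refine ⟨4, ?_⟩
      rintro x ⟨s, hs, rfl⟩
      have := (mem_R_iff s).1 hs
      show (4 : ℝ) ≤ (s : ℝ)
      exact_mod_cast this.le
    exact absurd (csInf_le h2 h1) (not_le.2 hr2)
  · refine le_csInf ⟨((5 : ℚ) : ℝ), 5, (mem_R_iff 5).2 (by norm_num), rfl⟩ ?_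
    rintro x ⟨s, hs, rfl⟩
    have := (mem_R_iff s).1 hs
    show (4 : ℝ) ≤ (s : ℝ)
    exact_mod_cast this.le

/-- **Q1 is answered in the negative.** There is a finite connected non-bipartite graph (one with
no proper 2-colouring) whose circular mixing threshold equals `4` and is not attained. -/
theorem result : ∃ (V : Type) (_ : Fintype V) (G : SimpleGraph V),
    G.Connected ∧ ¬ G.Colorable 2 ∧ Mc G = 4 ∧ ¬ Attained G := by
  refine ⟨V, inferInstance, G, G_connected, G_not_colorable, Mc_eq, ?_⟩
  rintro ⟨r, hr, h⟩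
  rw [Mc_eq] at h
  have h1 := (mem_R_iff r).1 hr
  have h2 : (r : ℝ) = ((4 : ℚ) : ℝ) := by rw [h]; norm_num
  have h3 : r = 4 := by exact_mod_cast h2
  linarith

end Pool.Agent.Results.MP_067019_co.CubePlusVertex
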